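import Pool.Agent.N882.UE.Weil

/-!
# MP_cb388a_ag: finite generation of Weil-étale cohomology and bilinear equations

`A n i X = H_i(X_W, ℤ[1/p](n))` is Weil-étale Borel–Moore homology of the schemes `X` over the finite field
`k` of characteristic `p`; for smooth `X` of pure dimension `D` this is `H^(2D-i)_W(X, ℤ(D-n)) ⊗ ℤ[1/p]`.
`IsWeil A` lists the known properties which are used. `FT True X`: `X` is separated and of finite type.
`WeilFin A X`: the `ℤ[1/p]`-modules `A n i X` are finitely generated for all `n, i ∈ ℤ`.

`bilS t` is the closed subscheme of the affine space of dimension `a + b` given by the `c` bilinear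
equations `bform t l = ∑ t_ijl x_i y_j = 0`, `sysS k E` is given by `few k E_l = ∑_{(i, j) ∈ E_l} x_i y_j = 0`,
`opnS f` is the principal open subscheme `f_1 ⋯ f_r ≠ 0` of the affine space, `hypS t` is the smooth affine
cubic hypersurface `∑ t_ijl x_i y_j z_l = 1`, and `tripS k H` is `∑_{(i, j, l) ∈ H} x_i y_j z_l = 1`.
-/

set_option autoImplicit false

open CategoryTheory AlgebraicGeometry Pool.Agent.Y116.UV Pool.Agent.N882.UE Pool.Agent.Q282.UK
  Pool.Agent.Q282.UZ

namespace Pool.Agent.Results.MP_cb388a_ag.BilinearEquations

variable {k : Type} [Field k]

/-- `H^i_W(X, ℤ(n)) ⊗ ℤ[1/p]` is finitely generated for all `i`, `n` and all smooth proper schemes `X` of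
dimension at most `d`. -/
def Lichtenbaum (A : Weil k) (d : ℕ) : Prop :=
  ∀ X : Sch k, Smooth X.hom → IsProper X.hom → topologicalKrullDim X.left ≤ d → WeilFin A X

/-- Finite generation for all separated schemes of finite type of dimension at most `d`. -/
def AllDim (A : Weil k) (d : ℕ) : Prop :=
  ∀ X : Sch k, FT True X → topologicalKrullDim X.left ≤ d → WeilFin A X

/-- The same for the smooth schemes. -/
def SmoothDim (A : Weil k) (d : ℕ) : Prop :=
  ∀ X : Sch k, FT True X → Smooth X.hom → topologicalKrullDim X.left ≤ d → WeilFin A X

/-- Finite generation for the systems of bilinear equations such that there are at most `r` variables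
`x` or at most `r` variables `y`. -/
def Variables (A : Weil k) (r : ℕ) : Prop :=
  ∀ (a b c : ℕ) (t : Fin a → Fin b → Fin c → k), (a ≤ r ∨ b ≤ r) → WeilFin A (bilS t)

/-- Finite generation for all systems of at most `r` bilinear equations. -/
def Equations (A : Weil k) (r : ℕ) : Prop :=
  ∀ (a b c : ℕ) (t : Fin a → Fin b → Fin c → k), c ≤ r → WeilFin A (bilS t)

/-- Finite generation for the hypersurfaces `t(x, y, z) = 1` of all trilinear forms such that one of the
three blocks of variables has at most `r` variables. -/
def Hypersurfaces (A : Weil k) (r : ℕ) : Prop :=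
  ∀ (a b c : ℕ) (t : Fin a → Fin b → Fin c → k), (a ≤ r ∨ b ≤ r ∨ c ≤ r) → WeilFin A (hypS t)

/-- Finite generation for the systems of bilinear equations with coefficients `1` and at most three
terms in every equation. -/
def ThreeTermSystems (A : Weil k) : Prop :=
  ∀ (a b c : ℕ) (E : Fin c → Finset (Fin a × Fin b)), (∀ l, (E l).card ≤ 3) →
    WeilFin A (sysS k E)

/-- Finite generation for the principal open subschemes `f_1 ⋯ f_r ≠ 0` of affine spaces, where the `f_l`
are bilinear forms with coefficients `1` and at most three terms. -/
def ThreeTermOpens (A : Weil k) : Prop :=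
  ∀ (a b r : ℕ) (E : Fin r → Finset (Fin a × Fin b)), (∀ l, (E l).card ≤ 3) →
    WeilFin A (opnS fun l => few k (E l))

/-- **Theorem.** Let `A n i X = H_i(X_W, ℤ[1/p](n))` be Weil-étale Borel–Moore homology of the schemes over
the finite field `k`. Finite generation is known in dimension at most one (`curves`), and it is known that
finite generation for the smooth proper schemes of dimension at most `d` implies finite generation for all
separated schemes of dimension at most `d` (`reduction`).
(1) For every `d` the following are equivalent: finite generation for the smooth proper schemes of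
dimension at most `d`; for all separated schemes of dimension at most `d`; for the smooth ones; for the
systems of bilinear equations with at most `d + 2` variables in one of the two blocks; for the systems of
at most `d + 2` bilinear equations; for the smooth hypersurfaces `t(x, y, z) = 1` of the trilinear forms
with a block of at most `d + 2` variables.
(2) Finite generation is true for all systems of bilinear equations with at most three variables in one of
the two blocks, for all systems of at most three bilinear equations, and for the hypersurfaces with a
block of at most three variables.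
(3) The following are equivalent: finite generation for all smooth proper schemes over `k`; for all systems
of bilinear equations; for the principal opens of affine spaces defined by products of bilinear forms.
(4) If `k` is a prime field, the following are equivalent: finite generation for all smooth proper schemes
over `k`; for the systems of bilinear equations with coefficients `1` and at most three terms in every
equation; for the principal opens defined by products of forms of this kind; for the smooth cubic
hypersurfaces `∑_{(i, j, l) ∈ H} x_i y_j z_l = 1` of the finite sets `H`. -/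
theorem result [Finite k] (A : Weil k) (hA : IsWeil A)
    (curves : AllDim A 1) (reduction : ∀ d, Lichtenbaum A d → AllDim A d) :
    (∀ d : ℕ, [Lichtenbaum A d, AllDim A d, SmoothDim A d, Variables A (d + 2), Equations A (d + 2),
      Hypersurfaces A (d + 2)].TFAE) ∧
    (Variables A 3 ∧ Equations A 3 ∧ Hypersurfaces A 3) ∧
    [(∀ d, Lichtenbaum A d),
      (∀ (a b c : ℕ) (t : Fin a → Fin b → Fin c → k), WeilFin A (bilS t)),
      (∀ (a b r : ℕ) (t : Fin a → Fin b → Fin r → k), WeilFin A (opnS (bform t)))].TFAE ∧
    ((Nat.card k).Prime → [(∀ d, Lichtenbaum A d), ThreeTermSystems A, ThreeTermOpens A,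
      (∀ (a b c : ℕ) (H : Finset (Fin a × Fin b × Fin c)), WeilFin A (tripS k H))].TFAE) := by
  have h0 : WeilFin A (aff k k) := by
    refine curves _ (ft_aff True) ?_
    rw [Pool.Agent.Z125.UN.topDim_aff, ringKrullDim_eq_zero_of_field]
    exact zero_le_one
  have hB := bnd_weil hA h0
  have hC := clo2_of_bnd hB
  have key : ∀ d : ℕ, [Lichtenbaum A d, AllDim A d, SmoothDim A d, Variables A (d + 2),
      Equations A (d + 2), Hypersurfaces A (d + 2)].TFAE := by
    intro d
    have h := gen_tfae hB d
    tfae_have 1 → 2 := reduction d
    tfae_have 2 → 1 := fun h X _ hX hd => h X ⟨inferInstance, inferInstance,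
      fun _ => inferInstance⟩ hd
    tfae_have 2 ↔ 3 := h.out 0 1
    tfae_have 2 ↔ 4 := h.out 0 2
    tfae_have 2 ↔ 5 := h.out 0 3
    tfae_have 2 ↔ 6 := h.out 0 4
    tfae_finish
  have hL : (∀ d, Lichtenbaum A d) ↔ ∀ X : Sch k, FT True X → WeilFin A X := by
    constructor
    · intro h X hX
      refine clo_universal (S := Set.univ) hC.toClo trivial trivial (fun a b c t _ => ?_)
        presents_univ X hX
      obtain ⟨d, hd⟩ := exists_dim (k := k)
        (MvPolynomial (Fin a ⊕ Fin b) k ⧸ Ideal.span (Set.range (bform t)))
      refine reduction d (h d) _ (ft_aff True) ?_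
      unfold bilS
      rw [Pool.Agent.Z125.UN.topDim_aff]
      exact hd
    · intro h d X _ hX _
      exact h X ⟨inferInstance, inferInstance, fun _ => inferInstance⟩
  refine ⟨key, ⟨?_, ?_, ?_⟩, ?_, fun hp => ?_⟩
  · exact ((key 1).out 1 3).mp curves
  · exact ((key 1).out 1 4).mp curves
  · exact ((key 1).out 1 5).mp curves
  · tfae_have 1 → 2 := fun h a b c t => hL.mp h _ (ft_aff True)
    tfae_have 2 → 1 := fun h => hL.mpr fun X hX =>
      clo_universal (S := Set.univ) hC.toClo trivial trivial (fun a b c t _ => h a b c t)
        presents_univ X hX
    tfae_have 1 ↔ 3 := hL.trans (opens_bil hC)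
    tfae_finish
  · have hS := short_presents (int_surj hp)
    tfae_have 1 ↔ 2 := hL.trans (three_iff hS hC.toClo)
    tfae_have 1 ↔ 3 := hL.trans (opens_few hS hC)
    tfae_have 1 → 4 := fun h a b c H => hL.mp h _ (ft_aff True)
    tfae_have 4 → 1 := fun h => hL.mpr fun X hX =>
      Pool.Agent.Q193.LT.universal_frac (frac_of_prime hp) hB.toUni h X hX
    tfae_finish

end Pool.Agent.Results.MP_cb388a_ag.BilinearEquations
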