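import Mathlib
import Pool.Agent.N205.UR.BridgeFG
import Pool.Agent.N205.SG.Count

/-!
# Finite generation of Weil-étale motivic cohomology: products of almost all abelian varieties of
every Newton stratum with all varieties

Let `g i` (`i` in a finite set `I`) be positive integers, `B` any number and `d` a number such that
either `d ≤ 2`, or `d ≤ g i` and `g i` is three or at least five, for all `i` (`DimsU`).  By Honda and
Tate the irreducible polynomials in `weilPolys (p ^ a) g` correspond to the isogeny classes of the
simple abelian varieties over the field with `q = p ^ a` elements whose field `ℚ (π)` has degree
`2 g`; the characteristic polynomial of the Frobenius is a power of the polynomial (the polynomial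
itself if `a = 1` or if the abelian variety is ordinary).

Let `S i` be a **stratum** (`IsStratum p a (g i) t (S i)`), for instance the set of the Weil
polynomials of degree `2 g i` whose Newton polygon is a given one, or lies on or above a given one,
or any set in between, or the set of the Weil polynomials of given `p`-rank. The parameter `t` may be
`a` if the `p`-rank is at least two, and any number `t ≤ a (1 - 2 λ) - 1` where `λ` is the first slope
(normalised so that the supersingular polygon has slope one half), see `StrataFacts`: so every
stratum except for the supersingular one is included as soon as `a (1 - 2 λ) ≥ 2`.

There is a constant `C`, depending only on `g`, `d` and `B`, such that the following holds.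

**(1)** For all families `f i` in `S i` with the exception of a proportion at most
`C (p ^ t) ^ (-1 / 6) log (p ^ t)`, the statement `FGForIndep (p ^ a) f` holds: for all `s > 0`, all
abelian varieties `A` over the field `k` with `q ^ s` elements, isogenous to products of powers of
abelian varieties coming from the field with `q` elements whose characteristic polynomials are powers
of the `f i`, and **all** smooth projective varieties `Z` over `k` such that

* no power `α ^ N`, `N > 0`, of a root `α` of one of the `f i` is a product of powers (with positive
  or negative exponents) of `q` and of eigenvalues of Frobenius of `Z` (`Indep`),
* homologically trivial self-correspondences of `A × Z` are nilpotent (this holds if the motive of `Z`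
  is finite-dimensional in the sense of Kimura and O'Sullivan, for instance if `Z` is dominated by a
  product of curves),

and for all `i` and `n`: **the group `H^i_W(A × Z, ℤ(n))` is finitely generated if and only if the
groups `H^(i - 2 c)_W(Z, ℤ(n - c))`, `0 ≤ c ≤ dim A`, are finitely generated**. So Lichtenbaum's
conjecture `L^n(A × Z)` is equivalent to the statements `L^(n - c)(Z)`, `0 ≤ c ≤ dim A`; those with
`c > n` are known (the groups are finite, by the theorem of Deligne). Moreover, if the statements
`L^(n - c)(Z)` hold then `L^n(X)` holds for **all** smooth projective varieties `X` dominated by
`A × Z`. The conjecture is known for `Z`, for instance, if `Z` is a point, a curve, or a surface or a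
threefold dominated by a product of curves (Soulé, Geisser, Kahn); the dimension of `A` is arbitrary.

The same holds, with the same proof, for the étale motivic cohomology groups and for every theory with
integral coefficients on which correspondences act. The exceptional families do not depend on `Z`, not
even on its dimension, and nothing is assumed about algebraic cycles on `Z` (neither the conjecture of
Tate nor the one of Beilinson).

**(2)** Let `χ₀` be any rational polynomial of degree at most `B`, for instance the characteristic
polynomial of Frobenius on the whole cohomology of a variety `Z₀` with total Betti number at most `B`.
With the exception of a proportion at most `C (p ^ t) ^ (-1 / 6) log (p ^ t)` of the families, **all**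
varieties `Z` which are tame relative to `χ₀` are independent: this is the case if the eigenvalues of
Frobenius of `Z`, up to powers and up to a group of rank less than the `g i`, are products of rational
numbers, of roots of `χ₀` and of Weil numbers of degree less than `2 d` (`d ≥ 3`).

For example (`χ₀ = X - 1`, `d` the minimum of the `g i`): if the `g i` are three or at least five, then
for almost all families (1) applies to **all** varieties `Z` (with finite-dimensional motive), of any
dimension, with all Betti numbers less than `2 d`, for instance to all products of curves of genus less
than `d`, and to the products of these with all varieties whose eigenvalues generate a group of rank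
less than `d`.

The starting files and the files of helper117, helper170 (`MP_cb388a_ag`) deduce the finite generation
from the conjectures of Tate and Beilinson for the varieties generated by the abelian varieties
themselves, by the theorem of Geisser and Kahn; there is no second factor `Z` there. Here the second
factor is arbitrary, the abelian varieties run through any Newton stratum, uniformly in `p`, `a` and
the stratum, and the theorem of Geisser and Kahn is not used: the decomposition is obtained directly
for the groups with integral coefficients.

The idea of the proof: by a sieve (helper521, helper484, and my modules SD, SG) almost all families in
a stratum are such that each pair `α`, `q / α` of roots can be exchanged by a Galois automorphism which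
fixes all the other roots of all the `f i`. So for independent `Z` the only Tate classes on `A × Z` are
sums of products of intersections of divisors on `A` with Tate classes on `Z`, and by nilpotence the
motive of `A × Z` with rational coefficients is the direct sum of Tate twists of the motive of `Z` and
of a motive on which the Frobenius endomorphism has no eigenvalue `Q ^ n`. For the passage to integral
coefficients, a theory with integral coefficients on which integral correspondences act is considered
through the rational theory formed by its sequences, tensored with `ℚ`; the Künneth formula for this
rational theory gives the Künneth formula for the integral theory up to a bounded denominator. Since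
the groups have only finitely many elements of each order, this is enough.
-/

set_option autoImplicit false

namespace Pool.Agent.Results.MP_cb388a_ag.EveryVariety

open Polynomial Pool.Agent.N205.SG

open Pool.Agent.N205.UR (FGForIndep)

/-- `StrataFacts`: the sets of the Weil polynomials with given Newton polygon, or with Newton
polygon on or above a given one, and the sets of those of given `p`-rank, are strata. -/
theorem result :
    (∀ {I : Type} [Fintype I] (g : I → ℕ) (_ : ∀ i, 0 < g i) (d : ℕ) (_ : DimsU g d) (B : ℕ),
      ∃ C : ℝ, ∀ p a t : ℕ, p.Prime → 0 < a → 0 < t → ∀ S : I → Set ℤ[X],
        (∀ i, IsStratum p a (g i) t (S i)) →
        (∀ i, (S i).Finite ∧ (4 ^ g i ≤ p ^ t → (S i).Nonempty)) ∧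
        ({f : I → ℤ[X] | (∀ i, f i ∈ S i) ∧ ¬ FGForIndep (p ^ a) f}.ncard : ℝ) ≤
          C * (Real.log ((p ^ t : ℕ) : ℝ) * ((p ^ t : ℕ) : ℝ) ^ (-(1 / 6) : ℝ)) *
            ∏ i, ((S i).ncard : ℝ) ∧
        ∀ χ₀ : ℚ[X], χ₀ ≠ 0 → χ₀.natDegree ≤ B →
          ({f : I → ℤ[X] | (∀ i, f i ∈ S i) ∧ ¬ TameIndep g d (p ^ a) χ₀ f}.ncard : ℝ) ≤
            C * (Real.log ((p ^ t : ℕ) : ℝ) * ((p ^ t : ℕ) : ℝ) ^ (-(1 / 6) : ℝ)) *
              ∏ i, ((S i).ncard : ℝ)) ∧
    StrataFacts :=
  ⟨fun g hg d hd B => indep_unif g hg d hd B (fun q f => FGForIndep q f)
    fun _ hq x hx => Pool.Agent.N205.UR.fg_indep g hg hq.one_lt x hx, strataFacts⟩

end Pool.Agent.Results.MP_cb388a_ag.EveryVariety
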