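import Pool.Agent.N876.CG.PairT
import Pool.Agent.N876.CG.RelApp
import Pool.Agent.N876.CG.Alg
import Pool.Agent.W484.CK.Main

/-!
# Lichtenbaum's conjecture for products with cyclic coverings branched along hyperplanes

Let `κ` be a finite field with `q = c ^ f` elements, and `𝒱` a class of smooth projective varieties over
`κ`, closed under products, with Chow groups `A` with rational coefficients and a Weil cohomology theory
`H` (framework of helper492 and helper484: `TheoryData`, `IsChow`, `IsWeil`). Let `X_i` be varieties in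
`𝒱`, of any dimensions `n_i`, which are models of cyclic coverings

  `w ^ N_i = ∏ l_{i,k} (x) ^ a_{i,k}`

of projective spaces, branched along hyperplanes `l_{i,k} = 0` over `κ`, with exponents prime to `N_i`,
where `N_i` divides `q - 1` (`IsModel`, see the definitions: the cohomology is generated by the
classes of cycles and a part `T`, pure of weight `n_i`, without invariants under the covering
group, for which the trace formula holds). Let `N` be a common multiple of the `N_i`, and `λ` an
integer such that `IsSmall N λ` holds: for every nonempty finite set `I` of indices and all `j_i` not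
divisible by `N_i` (`i ∈ I`) there is a `u` prime to `N` with
`∑_{i ∈ I} weight X_i (u j_i) + λ / 2 < ∑_{i ∈ I} (n_i / 2 + 1)`; here `weight X j` is the mean over the
orbit `j, c j, …, c ^ (f - 1) j` of the sum of the fractional parts of `j a_k / N_i`.

Let `Z` be **any** variety in `𝒱` such that the eigenvalues of the Frobenius on the cohomology of `Z` are
algebraic numbers which satisfy the Riemann hypothesis, and such that
* either `λ = 0` and the cyclotomic polynomial of order `N` is irreducible over the field generated by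
  these eigenvalues (for given `Z` this is true for all `N` prime to the discriminant of this field),
* or `Z` is of level `≤ λ`: the numbers `q ^ λ b / b̄` are algebraic integers for all these eigenvalues
  `b`. This is true if `dim Z ≤ λ`.
Assume that homologically trivial self-correspondences of degree zero of the products of `Z` with `X_i`
are nilpotent; this holds if the motives are finite-dimensional in the sense of Kimura and
O'Sullivan, for example if `Z` is dominated by a product of curves and the `X_i` are curves or have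
`n_i + 2` branch hyperplanes in general position (they are dominated by Fermat varieties).


The data for the question (`WeilEtaleData`, `IsWeilEtale`): for integers `m`, `n` and `X` in `𝒱` the groups
`G m X n = H_W^{2n-m}(X, ℤ(n))`; for every prime `l` (also for `l = char κ`) the theories
`T^n(X) = H_W^{2n-m}(X, ℤ(n)) ⊗ ℚ_l` and `R^n(X) = H^{2n-m}(X_et, ℚ_l(n))` and the natural map
`reg : T → R`. Correspondences act on them, and the Frobenius endomorphism of `X` acts on `T^n(X)` and
`R^n(X)` as multiplication by `q ^ n`. Let `K^n(X)` be the assertion that the maps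
`H_W^i(X, ℤ(n)) ⊗ ℚ_l → H^i(X_et, ℚ_l(n))` are bijective for all `i` and `l`. This is the
assertion `K^n(X)` of the question: since the complexes `RΓ_W(X, ℤ(n)) ⊗ ℤ_l` and `RΓ(X_et, ℤ_l(n))` have the
same reduction modulo `l`, the cohomology groups of the cone of the map between them are vector spaces
over `ℚ_l` (for `n < 0` the groups are finite, with the usual conventions). Let `L^n(X)` be the assertion that the groups `H_W^i(X, ℤ(n))` are finitely generated
for all `i`. The theorem of Geisser which is quoted in the question is a hypothesis: `L^n(X)` implies `K^n(X)`,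
and `K^n(X)` and `K^{dim X - n}(X)` together imply `L^n(X)`.

**Theorem.** Let `V` be the product of `Z` and of finitely many of the `X_i` (pairwise different), and
`d = dim V - dim Z`.
* For every `n`, **`K^n(V)` holds if and only if `K^l(Z)` holds for all `l` with `n - d ≤ l ≤ n`**.
* For every `n`, **`L^n(V)` and `L^{dim V - n}(V)` hold if and only if `L^l(Z)` and `L^{dim Z - l}(Z)` hold for
  all `l` with `n - d ≤ l ≤ n`**.
* `L^n(V)` holds for all `n` if and only if `L^n(Z)` holds for all `n`: Lichtenbaum's conjecture (Q1) for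
  `V` is equivalent to the conjecture for `Z`. If `dim V = 2 n` then `L^n(V)` is equivalent to the `L^l(Z)` with
  `n - d ≤ l ≤ n`.
* If `V = X_i × V'`, then there are finitely many algebraic cycles `D j` on `X_i`, with classes that are
  linearly independent in the cohomology of `X_i`, such that
  `T^n(V) = ⨁ D j × T^(n - deg D j)(V')` for all `n` and all theories `T` on which the Frobenius
  endomorphisms act as `q ^ n` on `T^n` (Künneth formula for Weil-etale cohomology with
  rational coefficients).

In particular Lichtenbaum's conjecture holds for `V` if `Z` is a point or a curve (and the homologically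
trivial correspondences are nilpotent, see above), or a variety dominated by products of curves for which
the Tate conjecture holds (Soulé, Geisser, Kahn).

Examples. (a) Let `X_i` be curves `y ^ N_i = ∏ (x - x_{i,k})` with `N_i` factors, of genus
`(N_i - 1) (N_i - 2) / 2`, for different prime numbers `N_i` dividing `c - 1`. Then `weight X_i j` is the
residue of `j` modulo `N_i`, and `IsSmall N 0` holds for the product `N` of the `N_i` (take `u` with
`u j_i = 1` modulo `N_i`). (b) Let `X` be the variety `w ^ N = l_1 ⋯ l_N` of dimension `n = N - 2`, with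
`N` hyperplanes in general position, for a prime number `N` dividing `c - 1` (the resolutions are
Calabi-Yau varieties). The weight for `u j = 1` is `1`, so `IsSmall N λ` holds for all `λ < n`, that
is, **for all varieties `Z` of dimension smaller than `dim X`** (with a finite-dimensional motive)
Lichtenbaum's conjecture for `X × Z` is equivalent to the one for `Z`.

The proof: by the theorem of Stickelberger on Gauss sums and the product formula no product of
eigenvalues of the Frobenius on the parts `T` of several `X_i` and on the cohomology of `Z` is a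
power of `q`. So, by induction, the generalized eigenvectors of the Frobenius of `X_i × V'` for the
eigenvalues `q ^ n` are combinations of products of algebraic classes of `X_i` with classes of `V'`, and
the intersection pairing on the algebraic classes of `X_i` is not degenerate. Let `D j`, `E j` be
dual systems of cycles on `X_i` for this pairing, `p = ∑ E j × D j` the projector on `X_i × V'` and
`P` a polynomial which kills all other eigenvalues. The correspondence `(1 - p) P (F)` is
homologically trivial, hence nilpotent; as it acts on `T^n(X_i × V')` as a nonzero multiple of the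
idempotent `1 - p`, this idempotent is zero (the idea to play the eigenvalues of Frobenius off
against nilpotence is due to Soulé, Geisser and Kahn).

Purity, the trace formula and the decomposition of the cohomology of the `X_i` are hypotheses
(Deligne, Grothendieck). The decomposition is compatible with the regulators.

helper876; built on the library of the starting files (estimates of sums over hyperplane
arrangements by Gauss sums: helper528 and helpers 800, 883, 135, 563, 271, 540, 400, 999, 782, 605,
346; traces on eigenspaces: helper117; correspondences, nilpotence and the Kunneth formula: helpers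
484, 492, 550).
-/

set_option autoImplicit false

open Finset Polynomial CategoryTheory AlgebraicGeometry

namespace Pool.Agent.Results.MP_cb388a_ag.HyperplaneCoverings

open Pool.Agent.H914 Pool.Agent.H914.VarClass Pool.Agent.H914.VarClass.Obj Pool.Agent.W492.BB
  Pool.Agent.W484.CK

/-- A cyclic covering `w ^ N = ∏ l_k (x) ^ a_k` of the projective space of dimension `n`, and a root of
unity `z`. -/
structure Covering (κ : Type) [Field κ] : Type where
  N : ℕ
  n : ℕ
  s : ℕ
  l : Fin s → Fin (n + 1) → κ
  a : Fin s → ℕ
  z : κ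

/-- `z` has order `N ≥ 2`, the exponents are prime to `N` and their sum is divisible by `N`. -/
structure Covering.IsAdmissible {κ : Type} [Field κ] (X : Covering κ) : Prop where
  two_le : 2 ≤ X.N
  root : IsPrimitiveRoot X.z X.N
  coprime : ∀ k, (X.a k).Coprime X.N
  dvd : X.N ∣ ∑ k, X.a k

/-- The value of the form `∏ l_k ^ a_k` at a vector with coordinates in `L`. -/
def Covering.value {κ : Type} [Field κ] (X : Covering κ) (L : Type) [Field L] [Algebra κ L]
    (x : Fin (X.n + 1) → L) : L :=
  ∏ k, (∑ t, algebraMap κ L (X.l k t) * x t) ^ X.a k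

/-- The number of vectors over `L` where the form is not zero. -/
noncomputable def Covering.openCount {κ : Type} [Field κ] (X : Covering κ) (L : Type) [Field L]
    [Algebra κ L] : ℕ :=
  Set.ncard {x : Fin (X.n + 1) → L | X.value L x ≠ 0}

/-- The number of vectors over `L` where the form is not zero and its power with the exponent
`(|L| - 1) / N` is `z ^ i`. -/
noncomputable def Covering.fixCount {κ : Type} [Field κ] (X : Covering κ) (L : Type) [Field L]
    [Fintype L] [Algebra κ L] (i : ℕ) : ℕ :=
  Set.ncard {x : Fin (X.n + 1) → L | X.value L x ≠ 0 ∧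
    (X.value L x) ^ ((Fintype.card L - 1) / X.N) = algebraMap κ L X.z ^ i}

/-- `T` is the part without invariants of the cohomology of degree `n` of a smooth projective model
of the covering, with the Frobenius `Φ` and the generator `g` of the covering group. The trace
of `Φ ^ [L : κ] g ^ i` is up to the sign the difference of the number of fixed points over the open
set `∏ l_k ≠ 0` of projective space (`N` points over each point where the form has the power residue
symbol `z ^ i`) and of the number of the points of this open set. -/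
structure IsCyclicCovering {κ : Type} [Field κ] (X : Covering κ) {K T : Type} [Field K]
    [AddCommGroup T] [Module K T] (Φ g : Module.End K T) : Prop where
  commute : Commute Φ g
  order : g ^ X.N = 1
  invariants : ∀ t, g t = t → t = 0
  lefschetz : ∀ (L : Type) [Field L] [Fintype L] [Algebra κ L] (i : ℕ),
    ((Fintype.card L : K) - 1) *
        ((-1) ^ X.n * LinearMap.trace K T (Φ ^ Module.finrank κ L * g ^ i)) =
      (X.N : K) * (X.fixCount L i : K) - (X.openCount L : K)

/-- The mean over `j, c j, …, c ^ (f - 1) j` of the sum of the fractional parts of `j a_k / N`. -/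
def Covering.weight {κ : Type} [Field κ] (X : Covering κ) (c f j : ℕ) : ℚ :=
  (∑ k, ∑ t ∈ range f, (((j * X.a k * c ^ t) % X.N : ℕ) : ℚ)) / (f * X.N)

/-- The condition on the exponents. -/
def IsSmall {κ : Type} [Field κ] {ι : Type} (X : ι → Covering κ) (c f N lam : ℕ) : Prop :=
  ∀ I : Finset ι, I.Nonempty → ∀ j : ι → ℕ, (∀ i ∈ I, ¬ (X i).N ∣ j i) →
    ∃ u : ℕ, u.Coprime N ∧
      ∑ i ∈ I, (X i).weight c f (u * j i) + (lam : ℚ) / 2 < ∑ i ∈ I, (((X i).n : ℚ) / 2 + 1)

/-- The space `H` is generated by the subspace `P` (the classes of algebraic cycles) and a subspace `T`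
which is stable under `Φ` (the Frobenius) and `g` (a generator of the covering group), `T` is the part
without invariants (`IsCyclicCovering`), and pure of weight `n`. The complex numbers enter by an
embedding `τ` of the coefficient field. -/
def IsCoveringCohomology {κ : Type} [Field κ] [Fintype κ] (C : Covering κ) {K H : Type} [Field K]
    [AddCommGroup H] [Module K H] (P : Submodule K H) (Φ g : Module.End K H) (τ : K →+* ℂ) : Prop :=
  ∃ (T : Submodule K H) (hΦ : ∀ t ∈ T, Φ t ∈ T) (hg : ∀ t ∈ T, g t ∈ T), P ⊔ T = ⊤ ∧
    IsCyclicCovering C (Φ.restrict hΦ) (g.restrict hg) ∧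
    ∀ α, Module.End.HasEigenvalue (Φ.restrict hΦ) α → ‖τ α‖ ^ 2 = (Fintype.card κ : ℝ) ^ C.n

/-- The images of the eigenvalues of `Φ` under the embedding `τ` of the coefficient field. -/
def eigenvalues {K H : Type} [Field K] [AddCommGroup H] [Module K H] (Φ : Module.End K H)
    (τ : K →+* ℂ) : Set ℂ :=
  {b | ∃ β : K, Φ.HasEigenvalue β ∧ τ β = b}

/-- The conditions on the set `B` of the eigenvalues of the Frobenius on the cohomology of `Z`: the
Riemann hypothesis, and either `lam = 0` and the cyclotomic polynomial of order `N` is irreducible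
over the field generated by `B`, or `Z` is of level at most `lam`. -/
def IsGoodBase (q N lam : ℕ) (B : Set ℂ) : Prop :=
  (∀ b ∈ B, IsAlgebraic ℚ b ∧ ∃ j : ℕ, ‖b‖ ^ 2 = (q : ℝ) ^ j) ∧
    ((lam = 0 ∧ Irreducible (cyclotomic N (IntermediateField.adjoin ℚ B))) ∨
      ∀ b ∈ B, IsIntegral ℤ ((q : ℂ) ^ lam * b / starRingEnd ℂ b))

/-- An endomorphism of an algebra as a linear map. -/
def ofHom {K H : Type} [Field K] [Ring H] [Algebra K H] (g : H →ₐ[K] H) : Module.End K H :=
  g.toLinearMap

/-- `IsCoveringCohomology` for endomorphisms of an algebra. -/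
def IsCoveringAlgebra {κ : Type} [Field κ] [Fintype κ] (C : Covering κ) {K H : Type} [Field K]
    [Ring H] [Algebra K H] (P : Submodule K H) (φ g : H →ₐ[K] H) (τ : K →+* ℂ) : Prop :=
  IsCoveringCohomology C P (ofHom φ) (ofHom g) τ

/-- The images of the eigenvalues of an endomorphism of an algebra. -/
def eigenvaluesOf {K H : Type} [Field K] [Ring H] [Algebra K H] (φ : H →ₐ[K] H) (τ : K →+* ℂ) :
    Set ℂ :=
  eigenvalues (ofHom φ) τ

/-- The field `κ` has `c ^ f` elements, the coverings are admissible, `N` is a common multiple of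
their degrees, and `IsSmall` holds. -/
structure IsSmallSystem {κ : Type} [Field κ] [Fintype κ] {ι : Type} (C : ι → Covering κ)
    (c f N lam : ℕ) : Prop where
  card : Fintype.card κ = c ^ f
  admissible : ∀ i, (C i).IsAdmissible
  pos : 0 < N
  dvd : ∀ i, (C i).N ∣ N
  small : IsSmall C c f N lam

section geometry

variable {κ : Type} [Field κ] {𝒱 : VarClass κ} {A : TheoryData.{0, 0, 0} 𝒱 ℚ} {K : Type} [Field K]

/-- The span of the classes of cycles on `X`. -/
def cycleSpan (H : WeilTheoryData.{0, 0, 0} A K) (X : 𝒱.Obj) : Submodule K (H.A X) :=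
  Submodule.span K {a | ∃ (i : ℕ) (z : A.A X), A.Deg i z ∧ a = H.cl z}

/-- `X`, with the Frobenius endomorphism `φ`, is a model of the covering `C`, with a generator `g` of
the covering group. -/
def IsModel [Fintype κ] (C : Covering κ) (H : WeilTheoryData.{0, 0, 0} A K) {X : 𝒱.Obj}
    (φ : X ⟶ X) (τ : K →+* ℂ) : Prop :=
  ∃ g : X ⟶ X, IsCoveringAlgebra C (cycleSpan H X) (H.pull φ) (H.pull g) τ

/-- There is a divisor on `X` whose power with the exponent `dim X` is not zero in the cohomology. -/
def IsPolarized (H : WeilTheoryData.{0, 0, 0} A K) (X : 𝒱.Obj) : Prop :=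
  ∃ D : A.A X, A.Deg 1 D ∧ H.cl D ^ X.dim ≠ 0

/-- The product `X i₁ × (X i₂ × (⋯ × Z))`. -/
noncomputable def productOf {ι : Type} (X : ι → 𝒱.Obj) (Z : 𝒱.Obj) : List ι → 𝒱.Obj
  | [] => Z
  | i :: L => (X i).prod (productOf X Z L)

/-- The sum of the dimensions of the `X i`. -/
def dimension {ι : Type} (X : ι → 𝒱.Obj) : List ι → ℕ
  | [] => 0
  | i :: L => (X i).dim + dimension X L

/-- `F` is the Frobenius endomorphism of the varieties over `κ`, the varieties `X i` are models of the
coverings, the variety `Z` satisfies `IsGoodBase`, and homologically trivial correspondences on the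
products are nilpotent. -/
structure IsCoveringSystem [Fintype κ] {ι : Type} (C : ι → Covering κ) (N lam : ℕ)
    (H : WeilTheoryData.{0, 0, 0} A K) (τ : K →+* ℂ) (F : ∀ X : 𝒱.Obj, X ⟶ X) (X : ι → 𝒱.Obj)
    (Z : 𝒱.Obj) : Prop where
  standard : IsStandard H
  frobenius : ∀ X, IsFrobenius A (F X) (Fintype.card κ)
  product : ∀ X Y, F (X.prod Y) = prodMap (F X) (F Y)
  model : ∀ i, IsModel (C i) H (F (X i)) τ
  polarized : ∀ i, IsPolarized H (X i)
  base : IsGoodBase (Fintype.card κ) N lam (eigenvaluesOf (H.pull (F Z)) τ)
  nilpotence : ∀ L : List ι, Nilpotence H (productOf X Z L)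

/-- `T` is a theory with rational coefficients on which correspondences act, and the Frobenius
endomorphism `F X` acts on `T^n(X)` as multiplication by `q ^ n`. -/
structure IsFrobeniusTheory (T : MotivicData A) (F : ∀ X : 𝒱.Obj, X ⟶ X) (q : ℕ) : Prop where
  motivic : IsMotivic T
  power : ∀ X, ActsAsPower T (F X) q

/-- The maps `reg` from the theory `T` to the theory `R` preserve degrees and commute with the
operation of correspondences. -/
structure IsRegulator (T R : MotivicData A) (reg : ∀ X, T.M X →ₗ[ℚ] R.M X) : Prop where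
  mem : ∀ {X : 𝒱.Obj} {n : ℤ} {t : T.M X}, T.Deg n t → R.Deg n (reg X t)
  comm : ∀ {X Y : 𝒱.Obj} (Γ : A.A (X.prod Y)) (t : T.M X), reg Y (T.app Γ t) = R.app Γ (reg X t)

/-- The map `reg` from `T^n(X)` to `R^n(X)` is injective. -/
def IsInjective {T R : MotivicData A} (reg : ∀ X, T.M X →ₗ[ℚ] R.M X) (X : 𝒱.Obj) (n : ℤ) : Prop :=
  ∀ t : T.M X, T.Deg n t → reg X t = 0 → t = 0

/-- The map `reg` from `T^n(X)` to `R^n(X)` is surjective. -/
def IsOnto {T R : MotivicData A} (reg : ∀ X, T.M X →ₗ[ℚ] R.M X) (X : 𝒱.Obj) (n : ℤ) : Prop :=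
  ∀ r : R.M X, R.Deg n r → ∃ t : T.M X, T.Deg n t ∧ reg X t = r

/-- Data of the Weil-etale cohomology: groups `G m X n` (`H_W^{2n-m}(X, ℤ(n))`), for all `l` and
`m` theories `T l m`, `R l m` (`H_W^{2n-m}(X, ℤ(n)) ⊗ ℚ_l` and `H^{2n-m}(X_et, ℚ_l(n))` in degree `n`) and
maps from the first to the second. -/
structure WeilEtaleData (A : TheoryData.{0, 0, 0} 𝒱 ℚ) where
  G : ℤ → 𝒱.Obj → ℤ → Type
  [group : ∀ m X n, AddCommGroup (G m X n)]
  T : ℕ → ℤ → MotivicData A
  R : ℕ → ℤ → MotivicData A
  reg : ∀ (l : ℕ) (m : ℤ) (X : 𝒱.Obj), (T l m).M X →ₗ[ℚ] (R l m).M X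

attribute [instance] WeilEtaleData.group

/-- The assertion `K^n(X)`. -/
def HoldsK (W : WeilEtaleData A) (n : ℤ) (X : 𝒱.Obj) : Prop :=
  ∀ (l : ℕ) (m : ℤ), l.Prime → IsInjective (W.reg l m) X n ∧ IsOnto (W.reg l m) X n

/-- The assertion `L^n(X)`. -/
def HoldsL (W : WeilEtaleData A) (n : ℤ) (X : 𝒱.Obj) : Prop :=
  ∀ m : ℤ, AddGroup.FG (W.G m X n)

/-- The theories have the properties above, and the theorem of Geisser holds. -/
structure IsWeilEtale (W : WeilEtaleData A) (F : ∀ X : 𝒱.Obj, X ⟶ X) (q : ℕ) : Prop where
  source : ∀ (l : ℕ) (m : ℤ), l.Prime → IsFrobeniusTheory (W.T l m) F q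
  target : ∀ (l : ℕ) (m : ℤ), l.Prime → IsFrobeniusTheory (W.R l m) F q
  regulator : ∀ (l : ℕ) (m : ℤ), l.Prime → IsRegulator (W.T l m) (W.R l m) (W.reg l m)
  of_generated : ∀ (n : ℤ) (X : 𝒱.Obj), HoldsL W n X → HoldsK W n X
  generated : ∀ (n : ℤ) (X : 𝒱.Obj), HoldsK W n X → HoldsK W (X.dim - n) X → HoldsL W n X

/-- There are finitely many cycles `D j` on `X` with linearly independent classes such that for
all theories `T` with the properties `IsFrobeniusTheory`, `T (X × V)` is the direct sum of the
`D j × T (V)`. -/
def Decomposes (H : WeilTheoryData.{0, 0, 0} A K) (F : ∀ X : 𝒱.Obj, X ⟶ X) (q : ℕ)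
    (X V : 𝒱.Obj) : Prop :=
  ∃ (J : Type) (_ : Fintype J) (deg : J → ℕ) (D : J → A.A X), (∀ j, A.Deg (deg j) (D j)) ∧
    LinearIndependent K (fun j => H.cl (D j)) ∧
    ∀ T : MotivicData A, IsFrobeniusTheory T F q → HasKunneth T X V deg D

/-- The conclusions for the product `V` of the `X i` with `i ∈ L` and of `Z`. -/
structure Conclusions (H : WeilTheoryData.{0, 0, 0} A K) (F : ∀ X : 𝒱.Obj, X ⟶ X) (q : ℕ)
    {ι : Type} (X : ι → 𝒱.Obj) (Z : 𝒱.Obj) (L : List ι) : Prop where
  bijective : ∀ (W : WeilEtaleData A), IsWeilEtale W F q → ∀ n : ℤ,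
    HoldsK W n (productOf X Z L) ↔ ∀ l : ℤ, n - dimension X L ≤ l → l ≤ n → HoldsK W l Z
  generated : ∀ (W : WeilEtaleData A), IsWeilEtale W F q → ∀ n : ℤ,
    (HoldsL W n (productOf X Z L) ∧ HoldsL W ((productOf X Z L).dim - n) (productOf X Z L)) ↔
      ∀ l : ℤ, n - dimension X L ≤ l → l ≤ n → HoldsL W l Z ∧ HoldsL W (Z.dim - l) Z
  decomposes : ∀ i, i ∉ L → Decomposes H F q (X i) (productOf X Z L)

end geometry

/-- **Lichtenbaum's conjecture for products with cyclic coverings branched along hyperplanes.** -/
theorem result (c : ℕ) [Fact c.Prime] (κ : Type) [Field κ] [Fintype κ] [CharP κ c] {ι : Type}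
    (C : ι → Covering κ) (f N lam : ℕ) (hC : IsSmallSystem C c f N lam)
    {𝒱 : VarClass κ} (A : TheoryData.{0, 0, 0} 𝒱 ℚ) [IsChow A] {K : Type} [Field K]
    [IsAlgClosed K] [CharZero K] (H : WeilTheoryData.{0, 0, 0} A K) [IsWeil H] (τ : K →+* ℂ)
    (F : ∀ X : 𝒱.Obj, X ⟶ X) (X : ι → 𝒱.Obj) (Z : 𝒱.Obj)
    (h : IsCoveringSystem C N lam H τ F X Z) (L : List ι) (hL : L.Nodup) :
    Conclusions H F (Fintype.card κ) X Z L := by
  obtain ⟨hf, hC, hN, hdN, hsmall⟩ := hC
  obtain ⟨hstd, hfrob, hprod, hmodel, hpol, hbase, hnil⟩ := h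
  have hfin := hstd.finite
  have hf0 : 0 < f := by
    rcases Nat.eq_zero_or_pos f with h | h
    · rw [h, pow_zero] at hf
      have := Fintype.one_lt_card (α := κ)
      omega
    · exact h
  choose g T hσT hgT hT hcov hpure using hmodel
  have hsmall' : ∀ I : Finset ι, I.Nonempty → Pool.Agent.N876.UV.SmallI c f N lam
      (fun i => (C i).N) (fun i => (C i).n) (fun i => (C i).s) (fun i => (C i).a) I := by
    intro I hI j hj
    obtain ⟨u, hu, hlt⟩ := hsmall I hI j hj
    refine ⟨u, hu, Pool.Agent.N876.UV.weight_conv' hf0 hN hdN I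
      (fun i => ∑ k, ∑ t ∈ range f, (u * j i * (C i).a k * c ^ t) % (C i).N) ?_⟩
    refine lt_of_le_of_lt (le_of_eq ?_) hlt
    congr 1
    refine sum_congr rfl fun i _ => ?_
    unfold Covering.weight
    push_cast
    rfl
  have hcov' : ∀ i, Pool.Agent.N876.TC.IsCov (C i).N (C i).l (C i).a (C i).z
      ((ofHom (H.pull (F (X i)))).restrict (hσT i)) ((ofHom (H.pull (g i))).restrict (hgT i)) :=
    fun i => ⟨(hcov i).commute, (hcov i).order, (hcov i).invariants,
      fun L _ _ _ t => (hcov i).lefschetz L t⟩
  have hres : ∀ SZ, Pool.Agent.N876.FL.OtherOK τ (Fintype.card κ) N lam SZ →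
      Pool.Agent.N876.FL.NoResF (Fintype.card κ : K)
        (fun i => {α | Module.End.HasEigenvalue
          ((ofHom (H.pull (F (X i)))).restrict (hσT i)) α}) SZ :=
    fun SZ hSZ => Pool.Agent.N876.FL.nores_cov hN (fun i => (hC i).two_le) hdN κ hf
      (fun i => (hC i).root) (fun i => (C i).l) (fun i => (C i).a) (fun i => (hC i).coprime) τ
      hcov' hsmall' hpure hSZ
  have htw : ∀ L : List ι, productOf X Z L = Pool.Agent.N876.CG.tw X Z L := by
    intro L
    induction L with
    | nil => rfl
    | cons i L ih => rw [productOf, Pool.Agent.N876.CG.tw, ih]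
  have hdim : ∀ L : List ι, dimension X L = Pool.Agent.N876.CG.dims X L := by
    intro L
    induction L with
    | nil => rfl
    | cons i L ih => rw [dimension, Pool.Agent.N876.CG.dims, ih]
  have hsys : Pool.Agent.N876.CG.Cs H F (Fintype.card κ) X Z
      (fun i => {α | Module.End.HasEigenvalue
          ((ofHom (H.pull (F (X i)))).restrict (hσT i)) α}) :=
    { std := isStandard_bridge hstd
      one_lt := Fintype.one_lt_card
      frob := fun X => isFrobenius_bridge (hfrob X)
      prod := hprod
      cg := fun i => ⟨T i, hσT i, hT i, fun α hα => hα⟩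
      int := fun i α hα => Pool.Agent.N876.CG.int_cov hN (fun i => (hC i).two_le) hdN κ hf
        (fun i => (hC i).root) (fun i => (C i).l) (fun i => (C i).a) (fun i => (hC i).coprime) τ
        hcov' hsmall' hpure i α hα
      intZ := fun β hβ => Pool.Agent.N876.CG.integral_of_emb τ (hbase.1 _ ⟨β, hβ, rfl⟩).1
      res := by
        refine hres _ ⟨?_, ?_⟩
        · intro β hβ
          exact hbase.1 _ ⟨β, hβ, rfl⟩
        · rcases hbase.2 with h | h
          · exact Or.inl h
          · exact Or.inr fun β hβ => h _ ⟨β, hβ, rfl⟩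
      res1 := hres _ (Pool.Agent.N876.FL.otherOK_one τ _ _ _)
      nil := fun L => by rw [← htw L]; exact nilpotence_bridge (hnil L) }
  have hcorr : ∀ T : MotivicData A, IsFrobeniusTheory T F (Fintype.card κ) →
      Pool.Agent.W484.CH.IsCorrTheory (toCorr T) ∧
        ∀ X, Pool.Agent.W484.CH.ActsAsPower (toCorr T) (F X) (Fintype.card κ) :=
    fun T hT => ⟨toCorr_isCorrTheory hT.motivic, fun X => toCorr_actsAsPower (hT.power X)⟩
  have hdimV : (productOf X Z L).dim = dimension X L + Z.dim := by
    clear hL
    induction L with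
    | nil => rw [productOf, dimension, zero_add]
    | cons i L ih => rw [productOf, dimension, Obj.dim_prod, ih, add_assoc]
  have hK : ∀ W : WeilEtaleData A, IsWeilEtale W F (Fintype.card κ) → ∀ n : ℤ,
      HoldsK W n (productOf X Z L) ↔
        ∀ l : ℤ, n - dimension X L ≤ l → l ≤ n → HoldsK W l Z := by
    intro W hW n
    rw [htw L, hdim L]
    refine Pool.Agent.N876.CG.dims_induct (fun V n => HoldsK W n V) (fun i L hi hL => ?_) hL n
    obtain ⟨J, hJ, deg, D, E, h1, h2, h3⟩ := hsys.step hi hL
    refine ⟨J, deg, h1.le, fun l hl => Pool.Agent.N876.CG.exists_deg_big (hpol i) h2 hl,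
      fun n => ?_⟩
    have hreg : ∀ (l : ℕ) (m : ℤ), l.Prime →
        Pool.Agent.N876.CG.Nat' (toCorr (W.T l m)) (toCorr (W.R l m)) (W.reg l m) :=
      fun l m hl => ⟨(hW.regulator l m hl).mem, (hW.regulator l m hl).comm⟩
    have hi1 : ∀ (l : ℕ) (m : ℤ), l.Prime →
        (IsInjective (W.reg l m) ((X i).prod (Pool.Agent.N876.CG.tw X Z L)) n ↔
          ∀ j, IsInjective (W.reg l m) (Pool.Agent.N876.CG.tw X Z L) (n - deg j)) :=
      fun l m hl => Pool.Agent.N876.CG.inj_deg h1 (hcorr _ (hW.source l m hl)).1 (hreg l m hl)
        (h3 _ (hcorr _ (hW.source l m hl)).1 (hcorr _ (hW.source l m hl)).2) n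
    have hs1 : ∀ (l : ℕ) (m : ℤ), l.Prime →
        (IsOnto (W.reg l m) ((X i).prod (Pool.Agent.N876.CG.tw X Z L)) n ↔
          ∀ j, IsOnto (W.reg l m) (Pool.Agent.N876.CG.tw X Z L) (n - deg j)) :=
      fun l m hl => Pool.Agent.N876.CG.surj_deg h1 (hcorr _ (hW.source l m hl)).1
        (hcorr _ (hW.target l m hl)).1 (hreg l m hl)
        (h3 _ (hcorr _ (hW.target l m hl)).1 (hcorr _ (hW.target l m hl)).2) n
    constructor
    · intro h j l m hl
      exact ⟨(hi1 l m hl).1 (h l m hl).1 j, (hs1 l m hl).1 (h l m hl).2 j⟩
    · intro h l m hl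
      exact ⟨(hi1 l m hl).2 fun j => (h j l m hl).1, (hs1 l m hl).2 fun j => (h j l m hl).2⟩
  refine ⟨hK, fun W hW n => ?_, fun i hi => ?_⟩
  · have h1 := hK W hW n
    have h2 := hK W hW ((productOf X Z L).dim - n)
    rw [hdimV] at h2 ⊢
    push_cast at h2 ⊢
    constructor
    · rintro ⟨h3, h4⟩ l hl1 hl2
      have h5 := h1.1 (hW.of_generated _ _ h3) l hl1 hl2
      have h6 := h2.1 (hW.of_generated _ _ h4) (Z.dim - l) (by omega) (by omega)
      refine ⟨hW.generated _ _ h5 h6, hW.generated _ _ h6 ?_⟩
      rw [sub_sub_cancel]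
      exact h5
    · intro h3
      have h5 : HoldsK W n (productOf X Z L) :=
        h1.2 fun l hl1 hl2 => hW.of_generated _ _ (h3 l hl1 hl2).1
      have h6 : HoldsK W ((dimension X L : ℤ) + Z.dim - n) (productOf X Z L) :=
        h2.2 fun l hl1 hl2 => by
          have h7 := hW.of_generated _ _ (h3 (Z.dim - l) (by omega) (by omega)).2
          rwa [sub_sub_cancel] at h7
      refine ⟨hW.generated _ _ h5 ?_, hW.generated _ _ h6 ?_⟩
      · rw [hdimV]
        push_cast
        exact h6
      · rw [hdimV]
        push_cast
        rw [sub_sub_cancel]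
        exact h5
  · rw [htw L]
    obtain ⟨J, hJ, deg, D, E, h1, h2, h3⟩ := hsys.step hi hL
    refine ⟨J, hJ, deg, D, h1.left, ?_, fun T hT => ?_⟩
    · exact Pool.Agent.N876.CG.linearIndependent_of_dual (isStandard_bridge hstd) h1
    · exact h3 _ (hcorr T hT).1 (hcorr T hT).2

end Pool.Agent.Results.MP_cb388a_ag.HyperplaneCoverings
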