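import Mathlib
import Pool.Agent.N214.TD.Main

/-!
# Complete intersections of two diagonal forms are quotients of powers of curves

Let `K` be an algebraically closed field (for the question: an algebraic closure of `𝔽_q`), let
`n, m ≥ 1`, where `m` is not zero in `K`, and let `X` be the complete intersection

  `∑ a_j y_j ^ m = ∑ b_j y_j ^ m = 0`, `0 ≤ j ≤ n + 2`,

of two diagonal forms of degree `m` in the projective space of dimension `n + 2`, where
`a_i b_j ≠ a_j b_i` for `i ≠ j`. Then `X` is smooth of dimension `n` (the gradients of the two forms are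
linearly independent at each point), and conversely each smooth intersection of two diagonal
forms of degree `m ≥ 2` has this property.

**Theorem.** There are different `t_0, …, t_(n+2) ∈ K` and `s_0, …, s_(n+2) ∈ K \ {0}` with the following
properties. Let `w_j = ∏_{l ≠ j} (t_j - t_l)⁻¹` and let `C` be the curve with the `n + 1` equations
`∑_j w_j t_j ^ k x_j ^ m = 0`, `0 ≤ k ≤ n`, in the projective space of dimension `n + 2`.
* `C` is a smooth complete intersection, so it is a smooth connected projective curve (the Kummer
  covering of the line given by the `m`-th roots of the `x - t_j`, up to a common factor).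
* The coordinatewise product `C ^ n → X`, `(x_1, …, x_n) ↦ (s_j x_{1,j} ⋯ x_{n,j})_j`, is defined
  everywhere and surjective.
* Two points of `C ^ n` have the same image if and only if they are in the same orbit of the finite
  group `G` which is generated by the permutations of the factors and by the multiplications
  with the families `ε_i` (`1 ≤ i ≤ n`) of vectors of `m`-th roots of unity whose product is one,
  `∏_i ε_{i,j} = 1` for all `j`.

So `X` is the quotient `C ^ n / G`. The proof: `y` is a point of `X`, up to the factors `s_j`, if and only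
if there is a polynomial `f ≠ 0` of degree `≤ n` in one variable with `y_j ^ m = f (t_j)` for all `j`
(interpolation formula of Lagrange), and over `K` this polynomial is a product of `n` polynomials of
degree `≤ 1`.

Application to the question, with theorems which are not formalised here. Let `X` be a smooth
complete intersection of two diagonal forms over `𝔽_q`. By the theorem and the theory of Kimura and
O'Sullivan the Chow motive of `X` over the algebraic closure, and so over `𝔽_q`, is a direct summand
of the motive of a variety dominated by a product of curves, so it is of abelian type. If the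
dimension `n` is odd then the cohomology of even degree of `X` is generated by the powers of
the class of a hyperplane, so the Tate conjecture is true for `X`; it is also true for `n = 2`, by
the theorem of Tate on divisors of products of curves. By the theorems of Soulé, Geisser and
Kahn (varieties of abelian type which satisfy the Tate conjecture), `L ^ i (X)` and `K ^ i (X)` hold
for all `i`: the groups `H ^ j_W (X, ℤ(i))` are finitely generated, for all `i` and `j`.

helper214, with helper918, helper738 and helper301 (parts of project TD: interpolation, product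
decomposition, smoothness, unique factorisation, roots of unity, normal form).
-/

set_option autoImplicit false

namespace Pool.Agent.Results.MP_cb388a_ag.TwoDiagonalForms

open Finset

/-- `y` gives a point of the intersection `X` of the diagonal forms of degree `m` with the
coefficients `a_j` and `b_j`. -/
def OnX {K : Type} [Field K] {N : ℕ} (a b : Fin N → K) (m : ℕ) (y : Fin N → K) : Prop :=
  y ≠ 0 ∧ ∑ j, a j * y j ^ m = 0 ∧ ∑ j, b j * y j ^ m = 0

/-- The weight `w_j = ∏_{l ≠ j} (t_j - t_l)⁻¹`. -/
def weight {K : Type} [Field K] {N : ℕ} (t : Fin N → K) (j : Fin N) : K :=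
  ∏ l ∈ univ.erase j, (t j - t l)⁻¹

/-- `x` gives a point of the curve `C`: it is not zero and satisfies the equations
`∑_j w_j t_j ^ k x_j ^ m = 0` for `0 ≤ k ≤ n`. -/
def OnC {K : Type} [Field K] (n : ℕ) (t : Fin (n + 3) → K) (m : ℕ) (x : Fin (n + 3) → K) : Prop :=
  x ≠ 0 ∧ ∀ k ≤ n, ∑ j, weight t j * t j ^ k * x j ^ m = 0

/-- `x'` is in the orbit of `x` under the group `G`, up to factors for the `n` points. -/
def SameOrbit {K : Type} [Field K] {n N : ℕ} (m : ℕ) (x x' : Fin n → Fin N → K) : Prop :=
  ∃ (σ : Equiv.Perm (Fin n)) (lam : Fin n → K) (eps : Fin n → Fin N → K),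
    (∀ i, lam i ≠ 0) ∧ (∀ i j, eps i j ^ m = 1) ∧ (∀ j, ∏ i, eps i j = 1) ∧
      ∀ i j, x' i j = lam i * (eps i j * x (σ i) j)

theorem onC_iff {K : Type} [Field K] (n : ℕ) (t : Fin (n + 3) → K) (m : ℕ) (x : Fin (n + 3) → K) :
    OnC n t m x ↔ Pool.Agent.N214.TD.IsPoint t (fun _ => m) 1 x := by
  constructor
  · intro h
    exact ⟨h.1, fun k hk => h.2 k (by omega)⟩
  · intro h
    exact ⟨h.1, fun k hk => h.2 k (by omega)⟩

/-- **Main result.** -/
theorem result (K : Type) [Field K] [IsAlgClosed K] (n m : ℕ) (hn : 1 ≤ n) (hm : (m : K) ≠ 0)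
    (a b : Fin (n + 3) → K) (hab : ∀ i j, i ≠ j → a i * b j ≠ a j * b i) :
    (∀ y, OnX a b m y → ∀ c d : K,
      (∀ j, c * (a j * (m * y j ^ (m - 1))) + d * (b j * (m * y j ^ (m - 1))) = 0) →
        c = 0 ∧ d = 0) ∧
    ∃ t s : Fin (n + 3) → K, Function.Injective t ∧ (∀ j, s j ≠ 0) ∧
      (∀ x, OnC n t m x → LinearIndependent K fun (k : Fin (n + 1)) (j : Fin (n + 3)) =>
        weight t j * t j ^ (k : ℕ) * ((m : K) * x j ^ (m - 1))) ∧
      (∀ x : Fin n → Fin (n + 3) → K, (∀ i, OnC n t m (x i)) →
        OnX a b m (fun j => s j * ∏ i, x i j)) ∧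
      (∀ y, OnX a b m y → ∃ x : Fin n → Fin (n + 3) → K, (∀ i, OnC n t m (x i)) ∧
        ∀ j, y j = s j * ∏ i, x i j) ∧
      (∀ x x' : Fin n → Fin (n + 3) → K, (∀ i, OnC n t m (x i)) → (∀ i, OnC n t m (x' i)) →
        ((∃ c : K, c ≠ 0 ∧ ∀ j, s j * ∏ i, x' i j = c * (s j * ∏ i, x i j)) ↔
          SameOrbit m x x')) := by
  have hm0 : m ≠ 0 := by
    rintro rfl
    exact hm (by simp)
  refine ⟨?_, ?_⟩
  · intro y hy c d hcd
    by_contra hne
    have hne' : c ≠ 0 ∨ d ≠ 0 := by
      by_contra h
      push Not at h
      exact hne h
    -- at most one coordinate is not zero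
    have key : ∀ j, y j ≠ 0 → c * a j + d * b j = 0 := by
      intro j hj
      have h1 := hcd j
      have h2 : (c * a j + d * b j) * ((m : K) * y j ^ (m - 1)) = 0 := by
        linear_combination h1
      exact (mul_eq_zero.1 h2).resolve_right (mul_ne_zero hm (pow_ne_zero _ hj))
    obtain ⟨j0, hj0⟩ : ∃ j, y j ≠ 0 := by
      by_contra h
      push Not at h
      exact hy.1 (funext h)
    have huniq : ∀ j, j ≠ j0 → y j = 0 := by
      intro j hj
      by_contra hyj
      have e1 := key j hyj
      have e2 := key j0 hj0
      apply hab j j0 hj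
      rcases hne' with hc | hd
      · have : c * (a j * b j0 - a j0 * b j) = 0 := by
          linear_combination b j0 * e1 - b j * e2
        have := (mul_eq_zero.1 this).resolve_left hc
        exact sub_eq_zero.1 this
      · have : d * (a j * b j0 - a j0 * b j) = 0 := by
          linear_combination a j * e2 - a j0 * e1
        have := (mul_eq_zero.1 this).resolve_left hd
        exact sub_eq_zero.1 this
    have ha : a j0 * y j0 ^ m = 0 := by
      rw [← hy.2.1]
      symm
      refine Finset.sum_eq_single j0 (fun j _ hj => ?_) (fun h => absurd (mem_univ _) h)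
      rw [huniq j hj, zero_pow hm0, mul_zero]
    have hb : b j0 * y j0 ^ m = 0 := by
      rw [← hy.2.2]
      symm
      refine Finset.sum_eq_single j0 (fun j _ hj => ?_) (fun h => absurd (mem_univ _) h)
      rw [huniq j hj, zero_pow hm0, mul_zero]
    have ha' := (mul_eq_zero.1 ha).resolve_right (pow_ne_zero _ hj0)
    have hb' := (mul_eq_zero.1 hb).resolve_right (pow_ne_zero _ hj0)
    obtain ⟨j1, hj1⟩ : ∃ j1 : Fin (n + 3), j1 ≠ j0 := exists_ne j0
    exact hab j1 j0 hj1 (by rw [ha', hb']; ring)
  · obtain ⟨t, s, ht, hs, hts⟩ := Pool.Agent.N214.TD.hNOR K (n + 3) m a b hm0 (by omega) hab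
    have hpt : ∀ y : Fin (n + 3) → K, OnX a b m y ↔
        Pool.Agent.N214.TD.IsPoint t (fun _ => m) n (fun j => s j * y j) := by
      intro y
      have hz : (y ≠ 0) ↔ (fun j => s j * y j) ≠ 0 := by
        rw [not_iff_not]
        constructor
        · rintro rfl
          funext j
          simp
        · intro h
          funext j
          have := congrFun h j
          exact (mul_eq_zero.1 this).resolve_left (hs j)
      constructor
      · intro h
        exact ⟨hz.1 h.1, fun k hk => (hts y).1 h.2 k (by omega)⟩
      · intro h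
        exact ⟨hz.2 h.1, (hts y).2 fun k hk => h.2 k (by omega)⟩
    refine ⟨t, fun j => (s j)⁻¹, ht, fun j => inv_ne_zero (hs j), ?_, ?_, ?_, ?_⟩
    · intro x hx
      have h := Pool.Agent.N214.TD.hSMO K (n + 3) 1 m t x ht hm (by omega) ((onC_iff n t m x).1 hx)
      exact h
    · intro x hx
      rw [hpt]
      have h := Pool.Agent.N214.TD.hPRO K (n + 3) n t (fun _ => m) x ht (fun _ => hm0) (by omega)
        (by omega) fun i => (onC_iff n t m _).1 (hx i)
      have e : (fun j => s j * ((s j)⁻¹ * ∏ i, x i j)) = fun j => ∏ i, x i j := by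
        funext j
        rw [mul_inv_cancel_left₀ (hs j)]
      rw [e]
      exact h
    · intro y hy
      obtain ⟨x, hx, hxy⟩ := Pool.Agent.N214.TD.hSUR K (n + 3) n t (fun _ => m) _ ht (fun _ => hm0)
        (by omega) (by omega) hn ((hpt y).1 hy)
      refine ⟨x, fun i => (onC_iff n t m _).2 (hx i), fun j => ?_⟩
      rw [← hxy j, inv_mul_cancel_left₀ (hs j)]
    · intro x x' hx hx'
      constructor
      · rintro ⟨c, hc, h⟩
        have h' : ∀ j, ∏ i, x' i j = c * ∏ i, x i j := by
          intro j
          have := h j
          have hsj : (s j)⁻¹ ≠ 0 := inv_ne_zero (hs j)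
          apply mul_left_cancel₀ hsj
          rw [this]
          ring
        obtain ⟨σ, lam, eps, h1, h2, h3, _, h5⟩ := Pool.Agent.N214.TD.fibres
          Pool.Agent.N214.TD.hLAG Pool.Agent.N214.TD.hUNI Pool.Agent.N214.TD.hADJ ht hm0 hn
          (by omega : n < n + 3) (fun i => (onC_iff n t m _).1 (hx i))
          (fun i => (onC_iff n t m _).1 (hx' i)) hc h'
        exact ⟨σ, lam, eps, h1, h2, h3, fun i j => by rw [h5 i j, mul_assoc]⟩
      · rintro ⟨σ, lam, eps, h1, h2, h3, h5⟩
        refine ⟨∏ i, lam i, Finset.prod_ne_zero_iff.2 fun i _ => h1 i, fun j => ?_⟩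
        have e : ∏ i, x' i j = (∏ i, lam i) * ∏ i, x i j := by
          calc ∏ i, x' i j = ∏ i, (lam i * (eps i j * x (σ i) j)) :=
                Finset.prod_congr rfl fun i _ => h5 i j
            _ = (∏ i, lam i) * ((∏ i, eps i j) * ∏ i, x (σ i) j) := by
                rw [Finset.prod_mul_distrib, Finset.prod_mul_distrib]
            _ = _ := by rw [h3 j, one_mul, Equiv.prod_comp σ (fun i => x i j)]
        rw [e]
        ring

end Pool.Agent.Results.MP_cb388a_ag.TwoDiagonalForms
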